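import Pool.Agent.H66.L.T64922ed1.X84.Fl.Orb
import Pool.Agent.H66.L.S8.H826R2.Wein.Flw

/-!
# Vector fields on closed manifolds and functions which do not decrease along the flow
-/

open scoped Topology ContDiff Manifold
open Set Filter Bundle MeasureTheory Pool.Agent.Helper186 Pool.Agent.H826R2.Wein

set_option autoImplicit false
set_option linter.unusedSectionVars false

noncomputable section

namespace Pool.Agent.X84.Fl

universe u

variable {E : Type u} [NormedAddCommGroup E] [NormedSpace ℝ E] [FiniteDimensional ℝ E]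
  {P : Type*} [TopologicalSpace P] [ChartedSpace E P] [IsManifold 𝓘(ℝ, E) ∞ P] [T2Space P]
  [CompactSpace P]

/-- smooth vector fields -/
def SmF (V : (x : P) → TangentSpace 𝓘(ℝ, E) x) : Prop :=
  ContMDiff 𝓘(ℝ, E) 𝓘(ℝ, E).tangent ∞ (fun x => (⟨x, V x⟩ : TangentBundle 𝓘(ℝ, E) P))

/-- `φ` is the flow of `V` -/
def IsFl (V : (x : P) → TangentSpace 𝓘(ℝ, E) x) (φ : Flow ℝ P) : Prop :=
  ∀ x, IsMIntegralCurve (I := 𝓘(ℝ, E)) (fun t => φ t x) V

variable {V : (x : P) → TangentSpace 𝓘(ℝ, E) x} {φ : Flow ℝ P}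

theorem exists_flow (hV : SmF V) : ∃ φ : Flow ℝ P, IsFl V φ := by
  have : IsManifold 𝓘(ℝ, E) 1 P := IsManifold.of_le (n := ∞) (by simp)
  have h1 : ∀ x : P, ∃ c : ℝ → P, c 0 = x ∧ IsMIntegralCurve (I := 𝓘(ℝ, E)) c V := fun x =>
    complete_of_compact hV isCompact_univ (fun x hx => absurd (mem_univ x) hx) x
  choose Fl h0 hFl using h1
  have hadd := flow_add hV h0 hFl
  have hc : Continuous (fun p : P × ℝ => Fl p.1 p.2) := (contMDiff_flow hV h0 hFl).continuous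
  refine ⟨{ toFun := fun t x => Fl x t
            cont' := ?_
            map_add' := ?_
            map_zero' := h0 }, hFl⟩
  · exact hc.comp (continuous_snd.prodMk continuous_fst)
  · intro s t x
    show Fl x (s + t) = Fl (Fl x t) s
    rw [add_comm, hadd]

theorem flow_unique (hV : SmF V) (hφ : IsFl V φ) {c : ℝ → P}
    (hc : IsMIntegralCurve (I := 𝓘(ℝ, E)) c V) (t : ℝ) : c t = φ t (c 0) := by
  have : IsManifold 𝓘(ℝ, E) 1 P := IsManifold.of_le (n := ∞) (by simp)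
  have h := isMIntegralCurve_Ioo_eq_of_contMDiff_boundaryless (t₀ := 0)
    (hV.of_le (by simp)) hc (hφ (c 0)) (by simp [Flow.map_zero_apply])
  exact congrFun h t

theorem along (hφ : IsFl V φ) {h : P → ℝ} (hh : ContMDiff 𝓘(ℝ, E) 𝓘(ℝ, ℝ) ∞ h) (x : P) (t : ℝ) :
    HasDerivAt (fun s => h (φ s x)) (dForm 𝓘(ℝ, E) h (φ t x) (V (φ t x))) t :=
  hasDerivAt_along (hφ x t) hh

theorem mono_along (hφ : IsFl V φ) {h : P → ℝ} (hh : ContMDiff 𝓘(ℝ, E) 𝓘(ℝ, ℝ) ∞ h)
    (hV : ∀ x, 0 ≤ dForm 𝓘(ℝ, E) h x (V x)) (x : P) : Monotone fun t => h (φ t x) :=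
  monotone_of_deriv_nonneg (fun t => (along hφ hh x t).differentiableAt) fun t => by
    rw [(along hφ hh x t).deriv]
    exact hV _

theorem zero_along (hφ : IsFl V φ) {h : P → ℝ} (hh : ContMDiff 𝓘(ℝ, E) 𝓘(ℝ, ℝ) ∞ h) {x : P}
    (hc : ∀ t, h (φ t x) = h x) (t : ℝ) : dForm 𝓘(ℝ, E) h (φ t x) (V (φ t x)) = 0 := by
  have h1 := along hφ hh x t
  have h2 : HasDerivAt (fun s => h (φ s x)) 0 t := by
    have : (fun s => h (φ s x)) = fun _ => h x := funext hc
    rw [this]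
    exact hasDerivAt_const t _
  exact h1.unique h2

/-- the perturbed field -/
def pert {n : ℕ} (ι : Imm (E := E) P n) (X : (x : P) → TangentSpace 𝓘(ℝ, E) x) (h : P → ℝ) (ε : ℝ)
    (x : P) : TangentSpace 𝓘(ℝ, E) x := X x + ε • ι.grad h x

variable {X : (x : P) → TangentSpace 𝓘(ℝ, E) x} {h : P → ℝ} {n : ℕ} (ι : Imm (E := E) P n)

theorem SmF.add {A B : (x : P) → TangentSpace 𝓘(ℝ, E) x} (hA : SmF A) (hB : SmF B) :
    SmF (fun x => A x + B x) := fun x =>
  contMDiffAt_add_along (f := fun x : P => x) (hA x) (hB x)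

theorem SmF.smul {A : (x : P) → TangentSpace 𝓘(ℝ, E) x} (hA : SmF A) (c : ℝ) :
    SmF (fun x => c • A x) := fun x =>
  contMDiffAt_smul_along (f := fun x : P => x) (a := fun _ => c) contMDiffAt_const (hA x)

theorem SmF.zero : SmF (fun x : P => (0 : TangentSpace 𝓘(ℝ, E) x)) := by
  have h := Bundle.contMDiff_zeroSection ℝ (TangentSpace 𝓘(ℝ, E) : P → Type u) (F := E)
    (IB := 𝓘(ℝ, E)) (n := ∞)
  exact h

/-- Small linear perturbations are close in every vector space topology. -/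
theorem closure_of_small {F S : Type*} [AddCommGroup F] [Module ℝ F] [Fintype S] (V : F) (Y : S → F)
    (G : Set F) (τ : TopologicalSpace F) (h1 : ContinuousAdd F) (h2 : ContinuousSMul ℝ F)
    (hG : ∀ δ : ℝ, 0 < δ → ∃ t : S → ℝ, (∀ j, |t j| < δ) ∧ V + ∑ j, t j • Y j ∈ G) :
    V ∈ closure G := by
  have hc : Continuous fun t : S → ℝ => V + ∑ j, t j • Y j :=
    continuous_const.add (continuous_finsetSum _ fun j _ =>
      (continuous_apply j).smul continuous_const)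
  rw [mem_closure_iff]
  intro O hO hV
  have h3 : (fun t : S → ℝ => V + ∑ j, t j • Y j) ⁻¹' O ∈ 𝓝 (0 : S → ℝ) := by
    apply (hO.preimage hc).mem_nhds
    simpa using hV
  obtain ⟨δ, hδ, h4⟩ := Metric.mem_nhds_iff.1 h3
  obtain ⟨t, ht, hW⟩ := hG δ hδ
  refine ⟨_, ?_, hW⟩
  apply h4
  rw [mem_ball_zero_iff, pi_norm_lt_iff hδ]
  exact ht

theorem pert_smooth (hX : SmF X) (hh : ContMDiff 𝓘(ℝ, E) 𝓘(ℝ, ℝ) ∞ h) (ε : ℝ) :
    SmF (pert ι X h ε) :=
  SmF.add hX (SmF.smul (ι.smooth_grad hh) ε)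

theorem dForm_pert (ε : ℝ) (x : P) :
    dForm 𝓘(ℝ, E) h x (pert ι X h ε x) = dForm 𝓘(ℝ, E) h x (X x) + ε * ι.G h x := by
  unfold pert
  rw [map_add, map_smul]
  rfl

theorem pert_nonneg (hX : ∀ x, 0 ≤ dForm 𝓘(ℝ, E) h x (X x)) {ε : ℝ} (hε : 0 ≤ ε) (x : P) :
    0 ≤ dForm 𝓘(ℝ, E) h x (pert ι X h ε x) := by
  rw [dForm_pert]
  have := ι.G_nonneg h x
  have := hX x
  positivity

theorem pert_crit (hX : ∀ x, 0 ≤ dForm 𝓘(ℝ, E) h x (X x)) {ε : ℝ} (hε : 0 < ε) {x : P}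
    (h0 : dForm 𝓘(ℝ, E) h x (pert ι X h ε x) = 0) : dForm 𝓘(ℝ, E) h x = 0 := by
  rw [dForm_pert] at h0
  have h1 := ι.G_nonneg h x
  have h2 := hX x
  apply ι.G_eq_zero
  have h3 : 0 ≤ ε * ι.G h x := mul_nonneg hε.le h1
  have h4 : ε * ι.G h x = 0 := by linarith
  rcases mul_eq_zero.1 h4 with h5 | h5
  · exact absurd h5 hε.ne'
  · exact h5

theorem pert_eq {ε : ℝ} {x : P} (h0 : dForm 𝓘(ℝ, E) h x = 0) : pert ι X h ε x = X x := by
  unfold pert
  have : ι.grad h x = 0 := by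
    apply ι.nondeg
    intro v
    rw [ι.grad_spec, h0]
    rfl
  rw [this, smul_zero, add_zero]

/-- An orbit of one field along which two fields agree is an orbit of the other. -/
theorem same_orbit {A B : (x : P) → TangentSpace 𝓘(ℝ, E) x} (hA : SmF A) {φ ψ : Flow ℝ P}
    (hφ : IsFl A φ) (hψ : IsFl B ψ) {x : P} (hx : ∀ t, A (ψ t x) = B (ψ t x)) (t : ℝ) :
    ψ t x = φ t x := by
  have h1 : IsMIntegralCurve (I := 𝓘(ℝ, E)) (fun t => ψ t x) A := by
    intro t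
    have := hψ x t
    rw [← hx t] at this
    exact this
  have h2 := flow_unique hA hφ h1 t
  rw [Flow.map_zero_apply] at h2
  exact h2

end Pool.Agent.X84.Fl
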