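import Pool.Agent.H66.L.T64922ed1.X84.Fl.Mono
import Pool.Agent.H66.L.T64922ed1.X84.Fl.Morse

/-!
# Fields of Hamiltonian type
-/

open scoped Topology ContDiff Manifold
open Set Filter Bundle MeasureTheory Pool.Agent.Helper186 Pool.Agent.H826R2.Wein

set_option autoImplicit false
set_option linter.unusedSectionVars false

noncomputable section

namespace Pool.Agent.X84.Fl

universe u v

variable {E : Type u} [NormedAddCommGroup E] [NormedSpace ℝ E] [FiniteDimensional ℝ E]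
  {P : Type v} [TopologicalSpace P] [ChartedSpace E P] [IsManifold 𝓘(ℝ, E) ∞ P] [T2Space P]
  [CompactSpace P]

/-- A field vanishes where all smooth functions have vanishing derivative along it. -/
theorem eq_zero_of_all {x : P} {w : TangentSpace 𝓘(ℝ, E) x}
    (hw : ∀ q : C^∞⟮𝓘(ℝ, E), P; 𝓘(ℝ, ℝ), ℝ⟯, dForm 𝓘(ℝ, E) q x w = 0) : w = 0 := by
  obtain ⟨n, ⟨im⟩⟩ := exists_imm (E := E) (P := P)
  have h1 : im.D x w = 0 := by
    ext j
    let pr : EuclideanSpace ℝ (Fin n) →L[ℝ] ℝ := EuclideanSpace.proj j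
    have h2 : ContMDiff 𝓘(ℝ, E) 𝓘(ℝ, ℝ) ∞ (fun y => im.F y j) :=
      pr.contMDiff.comp im.smooth
    have h3 := hw ⟨_, h2⟩
    have h4 : mfderiv 𝓘(ℝ, E) 𝓘(ℝ, ℝ) (fun y => im.F y j) x =
        (mfderiv 𝓘(ℝ, EuclideanSpace ℝ (Fin n)) 𝓘(ℝ, ℝ) pr (im.F x)).comp
          (mfderiv 𝓘(ℝ, E) 𝓘(ℝ, EuclideanSpace ℝ (Fin n)) im.F x) :=
      mfderiv_comp x (pr.contMDiff (n := ∞) |>.mdifferentiableAt (by simp))
        (im.smooth.mdifferentiableAt (by simp))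
    have h5 : mfderiv 𝓘(ℝ, EuclideanSpace ℝ (Fin n)) 𝓘(ℝ, ℝ) pr (im.F x) = pr := by
      rw [mfderiv_eq_fderiv]
      exact pr.fderiv
    rw [h5] at h4
    have h6 : dForm 𝓘(ℝ, E) (fun y => im.F y j) x w = (im.D x w) j := by
      have := DFunLike.congr_fun h4 w
      exact this
    rw [← h6]
    exact h3
  exact im.inj x (h1.trans (map_zero (im.D x)).symm)

variable (A : C^∞⟮𝓘(ℝ, E), P; 𝓘(ℝ, ℝ), ℝ⟯ →ₗ[ℝ] ((x : P) → TangentSpace 𝓘(ℝ, E) x))

/-- The field `A q` vanishes at the critical points of `q`. -/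
theorem A_crit (hpos : ∀ (q : C^∞⟮𝓘(ℝ, E), P; 𝓘(ℝ, ℝ), ℝ⟯) (x : P), 0 ≤ dForm 𝓘(ℝ, E) q x (A q x))
    {q : C^∞⟮𝓘(ℝ, E), P; 𝓘(ℝ, ℝ), ℝ⟯} {x : P} (hq : dForm 𝓘(ℝ, E) q x = 0) : A q x = 0 := by
  apply eq_zero_of_all
  intro g
  have hadd : ∀ t : ℝ, dForm 𝓘(ℝ, E) (q + t • g : C^∞⟮𝓘(ℝ, E), P; 𝓘(ℝ, ℝ), ℝ⟯) x =
      dForm 𝓘(ℝ, E) q x + t • dForm 𝓘(ℝ, E) g x := by
    intro t
    have h1 : HasMFDerivAt 𝓘(ℝ, E) 𝓘(ℝ, ℝ) q x (dForm 𝓘(ℝ, E) q x) :=
      (q.contMDiff.mdifferentiableAt (by simp)).hasMFDerivAt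
    have h2 : HasMFDerivAt 𝓘(ℝ, E) 𝓘(ℝ, ℝ) g x (dForm 𝓘(ℝ, E) g x) :=
      (g.contMDiff.mdifferentiableAt (by simp)).hasMFDerivAt
    exact (h1.add (h2.const_smul t)).mfderiv
  have hA : ∀ t : ℝ, A (q + t • g) x = A q x + t • A g x := by
    intro t
    rw [map_add, map_smul]
    rfl
  have key : ∀ t : ℝ, 0 ≤ t * dForm 𝓘(ℝ, E) g x (A q x) + t ^ 2 * dForm 𝓘(ℝ, E) g x (A g x) := by
    intro t
    have h1 := hpos (q + t • g) x
    rw [hadd, hA, hq, zero_add, smul_apply, map_add, map_smul, smul_eq_mul, smul_eq_mul] at h1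
    nlinarith
  set b := dForm 𝓘(ℝ, E) g x (A q x) with hb
  set c := dForm 𝓘(ℝ, E) g x (A g x) with hc
  have hc0 : 0 ≤ c := hpos g x
  have h1 := key (-b / (c + 1))
  have h2 : (-b / (c + 1)) * b + (-b / (c + 1)) ^ 2 * c = - (b ^ 2 / (c + 1) ^ 2) := by
    field_simp
    ring
  rw [h2] at h1
  have h3 : 0 ≤ b ^ 2 / (c + 1) ^ 2 := by positivity
  have h4 : b ^ 2 / (c + 1) ^ 2 = 0 := by linarith
  have h5 : (c + 1) ^ 2 ≠ 0 := by positivity
  rcases div_eq_zero_iff.1 h4 with h6 | h6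
  · exact pow_eq_zero_iff (two_ne_zero) |>.1 h6
  · exact absurd h6 h5

/-- the derivative at `x` is linear -/
def dl (x : P) : C^∞⟮𝓘(ℝ, E), P; 𝓘(ℝ, ℝ), ℝ⟯ →ₗ[ℝ] (TangentSpace 𝓘(ℝ, E) x →L[ℝ] ℝ) where
  toFun q := dForm 𝓘(ℝ, E) q x
  map_add' q g := by
    have h1 : HasMFDerivAt 𝓘(ℝ, E) 𝓘(ℝ, ℝ) q x (dForm 𝓘(ℝ, E) q x) :=
      (q.contMDiff.mdifferentiableAt (by simp)).hasMFDerivAt
    have h2 : HasMFDerivAt 𝓘(ℝ, E) 𝓘(ℝ, ℝ) g x (dForm 𝓘(ℝ, E) g x) :=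
      (g.contMDiff.mdifferentiableAt (by simp)).hasMFDerivAt
    exact (h1.add h2).mfderiv
  map_smul' t g := by
    have h2 : HasMFDerivAt 𝓘(ℝ, E) 𝓘(ℝ, ℝ) g x (dForm 𝓘(ℝ, E) g x) :=
      (g.contMDiff.mdifferentiableAt (by simp)).hasMFDerivAt
    exact (h2.const_smul t).mfderiv

theorem dl_apply (x : P) (q : C^∞⟮𝓘(ℝ, E), P; 𝓘(ℝ, ℝ), ℝ⟯) : dl x q = dForm 𝓘(ℝ, E) q x := rfl

/-- the gradient is linear -/
def gl {n : ℕ} (ι : Imm (E := E) P n) :
    C^∞⟮𝓘(ℝ, E), P; 𝓘(ℝ, ℝ), ℝ⟯ →ₗ[ℝ] ((x : P) → TangentSpace 𝓘(ℝ, E) x) where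
  toFun q := ι.grad q
  map_add' q g := by
    funext x
    symm
    apply ι.grad_unique
    intro v
    show ι.B x (ι.grad q x + ι.grad g x) v = _
    rw [map_add, ← dl_apply, map_add]
    show ι.B x (ι.grad q x) v + ι.B x (ι.grad g x) v = _
    rw [ι.grad_spec, ι.grad_spec]
    rfl
  map_smul' t g := by
    funext x
    symm
    apply ι.grad_unique
    intro v
    show ι.B x (t • ι.grad g x) v = _
    rw [map_smul, ← dl_apply, map_smul]
    show t • ι.B x (ι.grad g x) v = _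
    rw [ι.grad_spec]
    rfl

theorem gl_apply {n : ℕ} (ι : Imm (E := E) P n) (q : C^∞⟮𝓘(ℝ, E), P; 𝓘(ℝ, ℝ), ℝ⟯) (x : P) :
    gl ι q x = ι.grad q x := rfl

/-- an orbit with a single limit point converges -/
theorem tendsto_of_om {M : Type*} [TopologicalSpace M] [CompactSpace M] [T2Space M] {ψ : Flow ℝ M}
    {p z : M} (hp : om ψ p ⊆ {z}) : Tendsto (fun t => ψ t p) atTop (𝓝 z) := by
  intro W hW
  obtain ⟨O, hO, hOo, hz⟩ := mem_nhds_iff.1 hW
  have hev := eventually_mapsTo_of_isOpen_of_omegaLimit_subset atTop (fun t x => ψ t x) {p} hOo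
    (hp.trans (singleton_subset_iff.2 hz))
  rw [Filter.mem_map]
  filter_upwards [hev] with t ht
  exact hO (ht (mem_singleton p))

variable {A}

theorem ham_main (hA : ∀ q, SmF (A q))
    (hpos : ∀ (q : C^∞⟮𝓘(ℝ, E), P; 𝓘(ℝ, ℝ), ℝ⟯) (x : P), 0 ≤ dForm 𝓘(ℝ, E) q x (A q x))
    {n : ℕ} (ι : Imm (E := E) P n) (q : C^∞⟮𝓘(ℝ, E), P; 𝓘(ℝ, ℝ), ℝ⟯)
    (hfin : {x | dForm 𝓘(ℝ, E) q x = 0}.Finite) {ε : ℝ} (hε : 0 < ε)
    {ψ : Flow ℝ P} (hψ : IsFl (pert ι (A q) q ε) ψ) :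
    {x | pert ι (A q) q ε x = 0}.Finite ∧
      (∀ p, ∃ z, pert ι (A q) q ε z = 0 ∧ Tendsto (fun t => ψ t p) atTop (𝓝 z)) ∧
      (∀ p, Nonw ψ p → pert ι (A q) q ε p = 0) ∧
      ∀ [MeasurableSpace P] (μ : Measure P), FinAttr μ ψ := by
  obtain ⟨φ, hφ⟩ := exists_flow (hA q)
  set K := {x | dForm 𝓘(ℝ, E) q x = 0} with hK
  have hzero : ∀ x, pert ι (A q) q ε x = 0 ↔ x ∈ K := by
    intro x
    constructor
    · intro h0
      apply pert_crit ι (h := q) (X := A q) (hpos q) hε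
      rw [h0, map_zero]
    · intro hx
      rw [pert_eq ι hx]
      exact A_crit A hpos hx
  -- enumeration of the critical points
  have : Fintype K := hfin.fintype
  let en := Fintype.equivFin K
  let B : Fin (Fintype.card K) → Set P := fun i => {((en.symm i : K) : P)}
  have hB : ∀ y ∈ K, y ∈ ⋃ i, B i := by
    intro y hy
    refine mem_iUnion.2 ⟨en ⟨y, hy⟩, ?_⟩
    show y = ((en.symm (en ⟨y, hy⟩) : K) : P)
    rw [Equiv.symm_apply_apply]
  have hfix : ∀ x ∈ K, ∀ t, φ t x = x := by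
    intro x hx t
    have h1 : IsMIntegralCurve (I := 𝓘(ℝ, E)) (fun _ : ℝ => x) (A q) := by
      intro s
      have h2 : HasMFDerivAt 𝓘(ℝ, ℝ) 𝓘(ℝ, E) (fun _ : ℝ => x) s (0 : ℝ →L[ℝ] E) :=
        hasMFDerivAt_const x s
      refine h2.congr_mfderiv ?_
      rw [A_crit A hpos hx]
      refine ContinuousLinearMap.ext fun (r : ℝ) => ?_
      show (0:E) = r • (0:E)
      rw [smul_zero]
    exact (flow_unique (hA q) hφ h1 t).symm
  obtain ⟨-, h2, h3, h4⟩ := mono_main ι (hA q) hφ q.contMDiff (hpos q) B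
    (fun i => isClosed_singleton) (fun i j hij => by
      rw [disjoint_singleton]
      intro h
      exact hij (en.symm.injective (Subtype.ext h)))
    (fun i x hx => by
      rw [mem_singleton_iff.1 hx]
      exact (en.symm i).2)
    (fun i t => by
      show φ t '' {((en.symm i : K) : P)} = _
      rw [image_singleton, hfix _ (en.symm i).2])
    (fun i => ⟨_, mem_singleton _, by
      rintro x hx
      rw [mem_singleton_iff.1 hx]
      apply subset_closure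
      exact ⟨0, by simp, Flow.map_zero_apply _ _⟩⟩)
    (fun y hy => hB y (by have h5 := hy 0; rwa [Flow.map_zero_apply] at h5)) hε hψ
  refine ⟨?_, ?_, ?_, fun μ => h4 μ⟩
  · refine hfin.subset fun x hx => (hzero x).1 hx
  · intro p
    obtain ⟨i, hi⟩ := h3 p
    exact ⟨_, (hzero _).2 (en.symm i).2, tendsto_of_om hi⟩
  · intro p hp
    obtain ⟨i, hi⟩ := mem_iUnion.1 (h2 p hp)
    rw [mem_singleton_iff.1 hi]
    exact (hzero _).2 (en.symm i).2

/-- **Main lemma.** -/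
theorem ham_family (hA : ∀ q, SmF (A q))
    (hpos : ∀ (q : C^∞⟮𝓘(ℝ, E), P; 𝓘(ℝ, ℝ), ℝ⟯) (x : P), 0 ≤ dForm 𝓘(ℝ, E) q x (A q x))
    (h : C^∞⟮𝓘(ℝ, E), P; 𝓘(ℝ, ℝ), ℝ⟯) :
    ∃ (k : ℕ) (Y : Fin k → (x : P) → TangentSpace 𝓘(ℝ, E) x), (∀ j, SmF (Y j)) ∧
      ∀ δ : ℝ, 0 < δ → ∃ t : Fin k → ℝ, (∀ j, |t j| < δ) ∧
        ∃ ψ : Flow ℝ P, IsFl (fun x => A h x + ∑ j, t j • Y j x) ψ ∧
          {x | A h x + ∑ j, t j • Y j x = 0}.Finite ∧
          (∀ p, ∃ z, A h z + ∑ j, t j • Y j z = 0 ∧ Tendsto (fun s => ψ s p) atTop (𝓝 z)) ∧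
          (∀ p, Nonw ψ p → A h p + ∑ j, t j • Y j p = 0) ∧
          ∀ [MeasurableSpace P] (μ : Measure P), FinAttr μ ψ := by
  classical
  obtain ⟨n, ⟨im⟩⟩ := exists_imm (E := E) (P := P)
  obtain ⟨ι, f, -⟩ := SmoothBumpCovering.exists_isSubordinate 𝓘(ℝ, E) (isClosed_univ (X := P))
    fun (x : P) _ => (univ_mem : (univ : Set P) ∈ 𝓝 x)
  have : Fintype ι := f.fintype
  let S := ι × Fin (dm E)
  let g : S → C^∞⟮𝓘(ℝ, E), P; 𝓘(ℝ, ℝ), ℝ⟯ := fun s => ⟨fam f s, fam_smooth f s⟩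
  let J := Unit ⊕ (S ⊕ S)
  let Y₀ : J → (x : P) → TangentSpace 𝓘(ℝ, E) x := fun j => match j with
    | Sum.inl _ => im.grad h
    | Sum.inr (Sum.inl s) => A (g s)
    | Sum.inr (Sum.inr s) => im.grad (g s)
  let en := Fintype.equivFin J
  refine ⟨Fintype.card J, fun j => Y₀ (en.symm j), ?_, ?_⟩
  · intro j
    show SmF (Y₀ (en.symm j))
    generalize en.symm j = j'
    rcases j' with u | s | s
    · exact im.smooth_grad h.contMDiff
    · exact hA _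
    · exact im.smooth_grad (g s).contMDiff
  intro δ hδ
  set ε := min (δ / 2) 1 with hεd
  have hε : 0 < ε := by positivity
  have hεδ : ε < δ := (min_le_left _ _).trans_lt (by linarith)
  have hε1 : ε ≤ 1 := min_le_right _ _
  obtain ⟨a, ha1, ha2⟩ : ∃ a : S → ℝ, (∀ s, |a s| < δ) ∧
      {x | dForm 𝓘(ℝ, E) (pf h (fam f) a) x = 0}.Finite := by
    have h1 := Measure.dense_of_ae (generic_finite f h.contMDiff)
    obtain ⟨a, ha, ha'⟩ := h1.exists_mem_open (Metric.isOpen_ball (x := (0 : S → ℝ)) (ε := δ))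
      ⟨0, Metric.mem_ball_self hδ⟩
    refine ⟨a, fun s => ?_, ha⟩
    have h2 : ‖a‖ < δ := by simpa using ha'
    exact lt_of_le_of_lt (norm_le_pi_norm a s) h2
  let t₀ : J → ℝ := fun j => match j with
    | Sum.inl _ => ε
    | Sum.inr (Sum.inl s) => a s
    | Sum.inr (Sum.inr s) => ε * a s
  let q : C^∞⟮𝓘(ℝ, E), P; 𝓘(ℝ, ℝ), ℝ⟯ := h + ∑ s, a s • g s
  have hqf : (q : P → ℝ) = pf h (fam f) a := by
    funext x
    show (h + ∑ s, a s • g s : C^∞⟮𝓘(ℝ, E), P; 𝓘(ℝ, ℝ), ℝ⟯) x = h x + ∑ s, a s * fam f s x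
    rw [ContMDiffMap.coe_add, Pi.add_apply]
    congr 1
    have : (⇑(∑ s, a s • g s) : P → ℝ) = ∑ s, (⇑(a s • g s) : P → ℝ) :=
      map_sum (ContMDiffMap.coeFnLinearMap : C^∞⟮𝓘(ℝ, E), P; 𝓘(ℝ, ℝ), ℝ⟯ →ₗ[ℝ] P → ℝ) _ _
    rw [this, Finset.sum_apply]
    rfl
  have hfield : ∀ x, A h x + ∑ j, t₀ (en.symm j) • Y₀ (en.symm j) x = pert im (A q) q ε x := by
    intro x
    rw [Equiv.sum_comp en.symm (fun j => t₀ j • Y₀ j x)]
    simp only [J, Fintype.sum_sum_type, t₀, Y₀]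
    unfold pert
    have h1 : A q x = A h x + ∑ s, a s • A (g s) x := by
      show A (h + ∑ s, a s • g s) x = _
      rw [map_add, map_sum]
      show A h x + (∑ s, A (a s • g s)) x = _
      rw [Finset.sum_apply]
      congr 1
      refine Finset.sum_congr rfl fun s _ => ?_
      rw [map_smul]
      rfl
    have h2 : im.grad q x = im.grad h x + ∑ s, a s • im.grad (g s) x := by
      show gl im (h + ∑ s, a s • g s) x = _
      rw [map_add, map_sum]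
      show gl im h x + (∑ s, gl im (a s • g s)) x = _
      rw [Finset.sum_apply]
      congr 1
      refine Finset.sum_congr rfl fun s _ => ?_
      rw [map_smul]
      rfl
    rw [h1, h2, smul_add, Finset.smul_sum]
    simp only [Finset.univ_unique, Finset.sum_singleton, smul_smul]
    abel
  refine ⟨fun j => t₀ (en.symm j), ?_, ?_⟩
  · intro j
    show |t₀ (en.symm j)| < δ
    generalize en.symm j = j'
    rcases j' with u | s | s
    · show |ε| < δ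
      rwa [abs_of_pos hε]
    · exact ha1 s
    · show |ε * a s| < δ
      rw [abs_mul, abs_of_pos hε]
      calc ε * |a s| ≤ 1 * |a s| := mul_le_mul_of_nonneg_right hε1 (abs_nonneg _)
        _ < δ := by rw [one_mul]; exact ha1 s
  · obtain ⟨ψ, hψ⟩ := exists_flow (pert_smooth im (hA q) q.contMDiff ε)
    rw [← hqf] at ha2
    have hmain := ham_main hA hpos im q ha2 hε hψ
    have hfe : (fun x => A h x + ∑ j, t₀ (en.symm j) • Y₀ (en.symm j) x) = pert im (A q) q ε :=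
      funext hfield
    refine ⟨ψ, ?_, ?_, ?_, ?_, ?_⟩
    · rw [hfe]; exact hψ
    · simp only [hfield]; exact hmain.1
    · simp only [hfield]; exact hmain.2.1
    · simp only [hfield]; exact hmain.2.2.1
    · intro _ μ
      exact hmain.2.2.2 μ

variable (B : (x : P) → TangentSpace 𝓘(ℝ, E) x →L[ℝ] TangentSpace 𝓘(ℝ, E) x →L[ℝ] ℝ)

theorem exists_sharp (hnd : ∀ x (u : TangentSpace 𝓘(ℝ, E) x), (∀ v, B x u v = 0) → u = 0) (x : P)
    (l : TangentSpace 𝓘(ℝ, E) x →L[ℝ] ℝ) : ∃ u : TangentSpace 𝓘(ℝ, E) x, ∀ v, B x u v = l v := by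
  let b : E →L[ℝ] (E →L[ℝ] ℝ) := B x
  have hinj : Function.Injective (b : E →ₗ[ℝ] (E →L[ℝ] ℝ)) := by
    rw [injective_iff_map_eq_zero]
    intro u hu
    apply hnd x u
    intro v
    exact DFunLike.congr_fun hu v
  have hdim : Module.finrank ℝ E = Module.finrank ℝ (E →L[ℝ] ℝ) := by
    rw [← (LinearMap.toContinuousLinearMap (𝕜 := ℝ) (E := E) (F' := ℝ)).finrank_eq]
    exact (Subspace.dual_finrank_eq (K := ℝ) (V := E)).symm
  have hsurj := (LinearMap.injective_iff_surjective_of_finrank_eq_finrank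
    (f := (b : E →ₗ[ℝ] (E →L[ℝ] ℝ))) hdim).1 hinj
  obtain ⟨u, hu⟩ := hsurj l
  exact ⟨u, fun v => DFunLike.congr_fun hu v⟩

variable {B}

theorem sharp_unique (hnd : ∀ x (u : TangentSpace 𝓘(ℝ, E) x), (∀ v, B x u v = 0) → u = 0) {x : P}
    {u w : TangentSpace 𝓘(ℝ, E) x} (h : ∀ v, B x u v = B x w v) : u = w := by
  rw [← sub_eq_zero]
  apply hnd
  intro v
  have h1 : B x (u - w) v = B x u v - B x w v := by
    rw [map_sub]; rfl
  rw [h1, h, sub_self]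

/-- the operator defined by a nondegenerate bilinear form -/
def opB (hnd : ∀ x (u : TangentSpace 𝓘(ℝ, E) x), (∀ v, B x u v = 0) → u = 0) :
    C^∞⟮𝓘(ℝ, E), P; 𝓘(ℝ, ℝ), ℝ⟯ →ₗ[ℝ] ((x : P) → TangentSpace 𝓘(ℝ, E) x) where
  toFun q x := Classical.choose (exists_sharp B hnd x (dl x q))
  map_add' q g := by
    funext x
    apply sharp_unique hnd
    intro v
    show _ = B x (Classical.choose (exists_sharp B hnd x (dl x q)) +
      Classical.choose (exists_sharp B hnd x (dl x g))) v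
    rw [Classical.choose_spec (exists_sharp B hnd x (dl x (q + g))), map_add, map_add]
    show _ = B x (Classical.choose (exists_sharp B hnd x (dl x q))) v +
      B x (Classical.choose (exists_sharp B hnd x (dl x g))) v
    rw [Classical.choose_spec (exists_sharp B hnd x (dl x q)),
      Classical.choose_spec (exists_sharp B hnd x (dl x g))]
    rfl
  map_smul' t g := by
    funext x
    apply sharp_unique hnd
    intro v
    show _ = B x (t • Classical.choose (exists_sharp B hnd x (dl x g))) v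
    rw [Classical.choose_spec (exists_sharp B hnd x (dl x (t • g))), map_smul, map_smul]
    show _ = t • B x (Classical.choose (exists_sharp B hnd x (dl x g))) v
    rw [Classical.choose_spec (exists_sharp B hnd x (dl x g))]
    rfl

theorem opB_spec (hnd : ∀ x (u : TangentSpace 𝓘(ℝ, E) x), (∀ v, B x u v = 0) → u = 0)
    (q : C^∞⟮𝓘(ℝ, E), P; 𝓘(ℝ, ℝ), ℝ⟯) (x : P) (v : TangentSpace 𝓘(ℝ, E) x) :
    B x (opB hnd q x) v = dForm 𝓘(ℝ, E) q x v :=
  Classical.choose_spec (exists_sharp B hnd x (dl x q)) v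

theorem opB_smooth (hB : ∀ x, SmoothBilinAt 𝓘(ℝ, E) (fun y : P => y) B x)
    (hnd : ∀ x (u : TangentSpace 𝓘(ℝ, E) x), (∀ v, B x u v = 0) → u = 0)
    (q : C^∞⟮𝓘(ℝ, E), P; 𝓘(ℝ, ℝ), ℝ⟯) : SmF (opB hnd q) := by
  intro x
  refine contMDiffAt_of_pairing (J := 𝓘(ℝ, E)) (f := fun x : P => x) contMDiffAt_id
    (hB x) (hnd x) ?_
  intro v hv
  have h1 : ContMDiffAt 𝓘(ℝ, E) 𝓘(ℝ, ℝ) ∞ (fun x => dForm 𝓘(ℝ, E) q x (v x)) x :=
    (smoothForm_dForm q.contMDiff).comp hv le_rfl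
  refine h1.congr_of_eventuallyEq (Filter.Eventually.of_forall fun p => ?_)
  exact opB_spec hnd q p (v p)

end Pool.Agent.X84.Fl
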