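import Mathlib

/-!
# Flows with a monotone function: limit sets and attractors
-/

set_option autoImplicit false

open Filter Topology Set MeasureTheory

namespace Pool.Agent.X84.Fl

variable {M : Type*} [TopologicalSpace M]

/-- the `ω`-limit set of a point -/
def om (φ : Flow ℝ M) (p : M) : Set M := omegaLimit atTop (fun t x => φ t x) {p}

variable {φ : Flow ℝ M}

theorem mem_om {p y : M} : y ∈ om φ p ↔ MapClusterPt y atTop (fun t => φ t p) :=
  mem_omegaLimit_singleton_iff_mapClusterPt _ _ _ _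

theorem om_inv {p y : M} (hy : y ∈ om φ p) (t : ℝ) : φ t y ∈ om φ p :=
  Flow.isInvariant_omegaLimit atTop φ {p} (fun t => tendsto_atTop_add_const_left _ t tendsto_id) t hy

/-- A continuous function which does not decrease along the orbits is constant on `ω`-limit sets. -/
theorem const_on_om [CompactSpace M] {h : M → ℝ} (hc : Continuous h)
    (hm : ∀ x, Monotone fun t => h (φ t x)) {p y z : M} (hy : y ∈ om φ p) (hz : z ∈ om φ p) :
    h y = h z := by
  have hb : BddAbove (range fun t => h (φ t p)) := by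
    have h1 : BddAbove (range h) := (isCompact_range hc).bddAbove
    exact h1.mono (by rintro _ ⟨t, rfl⟩; exact ⟨_, rfl⟩)
  have h1 := tendsto_atTop_ciSup (hm p) hb
  have key : ∀ w ∈ om φ p, h w = ⨆ t, h (φ t p) := by
    intro w hw
    have h2 : MapClusterPt (h w) atTop (fun t => h (φ t p)) :=
      MapClusterPt.continuousAt_comp hc.continuousAt (mem_om.1 hw)
    have h3 : ClusterPt (h w) (𝓝 (⨆ t, h (φ t p))) := ClusterPt.mono h2 h1
    exact eq_of_nhds_neBot h3
  rw [key y hy, key z hz]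

theorem om_nonempty [CompactSpace M] (p : M) : (om φ p).Nonempty :=
  nonempty_omegaLimit _ _ _ (singleton_nonempty p)

/-- An `ω`-limit set contained in a finite union of disjoint closed sets lies in one of them. -/
theorem om_piece [CompactSpace M] [T2Space M] {m : ℕ} (A : Fin m → Set M) (hcl : ∀ i, IsClosed (A i))
    (hd : ∀ i j, i ≠ j → Disjoint (A i) (A j)) (p : M) (hcov : om φ p ⊆ ⋃ i, A i) :
    ∃ i, om φ p ⊆ A i := by
  obtain ⟨y, hy⟩ := om_nonempty (φ := φ) p
  obtain ⟨i, hi⟩ := mem_iUnion.1 (hcov hy)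
  refine ⟨i, ?_⟩
  set B : Set M := ⋃ j, ⋃ (_ : j ≠ i), A j with hB
  have hBc : IsClosed B := isClosed_iUnion_of_finite fun j => isClosed_iUnion_of_finite fun _ => hcl j
  have hAB : Disjoint (A i) B := by
    rw [hB, disjoint_iUnion_right]
    intro j
    rw [disjoint_iUnion_right]
    exact fun hj => hd i j (Ne.symm hj)
  obtain ⟨U, W, hU, hW, hAU, hBW, hUW⟩ := normal_separation (hcl i) hBc hAB
  have hsub : om φ p ⊆ U ∪ W := by
    intro z hz
    obtain ⟨j, hj⟩ := mem_iUnion.1 (hcov hz)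
    by_cases hji : j = i
    · subst hji
      exact Or.inl (hAU hj)
    · exact Or.inr (hBW (mem_iUnion₂.2 ⟨j, hji, hj⟩))
  have hev := eventually_mapsTo_of_isOpen_of_omegaLimit_subset atTop (fun t x => φ t x) {p}
    (hU.union hW) hsub
  obtain ⟨T, hT⟩ := eventually_atTop.1 hev
  have himg : (fun t => φ t p) '' Ici T ⊆ U ∪ W := by
    rintro _ ⟨t, ht, rfl⟩
    exact hT t ht (mem_singleton p)
  have hcont : Continuous fun t => φ t p := φ.continuous continuous_id continuous_const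
  have hpre : IsPreconnected ((fun t => φ t p) '' Ici T) :=
    isPreconnected_Ici.image _ hcont.continuousOn
  rcases hpre.subset_or_subset hU hW hUW himg with h1 | h1
  · intro z hz
    obtain ⟨j, hj⟩ := mem_iUnion.1 (hcov hz)
    by_cases hji : j = i
    · subst hji; exact hj
    · exfalso
      have hzW : z ∈ W := hBW (mem_iUnion₂.2 ⟨j, hji, hj⟩)
      have h2 := (mem_om.1 hz).frequently (hW.mem_nhds hzW)
      obtain ⟨t, h3, h4⟩ := (h2.and_eventually (eventually_ge_atTop T)).exists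
      exact Set.disjoint_left.1 hUW (h1 ⟨t, h4, rfl⟩) h3
  · exfalso
    have h2 := (mem_om.1 hy).frequently (hU.mem_nhds (hAU hi))
    obtain ⟨t, h3, h4⟩ := (h2.and_eventually (eventually_ge_atTop T)).exists
    exact Set.disjoint_left.1 hUW h3 (h1 ⟨t, h4, rfl⟩)

/-- **Pieces.** -/
theorem pieces [CompactSpace M] [T2Space M] {h : M → ℝ} (hc : Continuous h)
    (hm : ∀ x, Monotone fun t => h (φ t x)) {m : ℕ} (A : Fin m → Set M) (hcl : ∀ i, IsClosed (A i))
    (hd : ∀ i j, i ≠ j → Disjoint (A i) (A j))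
    (hcov : ∀ y, (∀ t, h (φ t y) = h y) → y ∈ ⋃ i, A i) (p : M) : ∃ i, om φ p ⊆ A i :=
  om_piece A hcl hd p fun y hy => hcov y fun t => const_on_om hc hm (om_inv hy t) hy

/-- attractors, as in the problem -/
def IsAttr [MeasurableSpace M] (μ : Measure M) (φ : Flow ℝ M) (Λ : Set M) : Prop :=
  (∀ t, φ t '' Λ = Λ) ∧ (∃ x ∈ Λ, Λ ⊆ closure ((fun t => φ t x) '' Ici 0)) ∧ 0 < μ {p | om φ p ⊆ Λ}

/-- finitely many attractors cover the space -/
def FinAttr [MeasurableSpace M] (μ : Measure M) (φ : Flow ℝ M) : Prop :=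
  ∃ S : Set (Set M), S.Finite ∧ (∀ Λ ∈ S, IsAttr μ φ Λ) ∧ μ (⋃ Λ ∈ S, {p | om φ p ⊆ Λ})ᶜ = 0

theorem finAttr [MeasurableSpace M] (μ : Measure M) {m : ℕ} (A : Fin m → Set M)
    (hinv : ∀ i t, φ t '' A i = A i)
    (htr : ∀ i, ∃ x ∈ A i, A i ⊆ closure ((fun t => φ t x) '' Ici 0))
    (hp : ∀ p, ∃ i, om φ p ⊆ A i) : FinAttr μ φ := by
  classical
  refine ⟨A '' {i | 0 < μ {p | om φ p ⊆ A i}}, (Set.toFinite _).image _, ?_, ?_⟩
  · rintro _ ⟨i, hi, rfl⟩
    exact ⟨hinv i, htr i, hi⟩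
  · have hsub : (⋃ Λ ∈ A '' {i | 0 < μ {p | om φ p ⊆ A i}}, {p | om φ p ⊆ Λ})ᶜ ⊆
        ⋃ i ∈ {i | μ {p | om φ p ⊆ A i} = 0}, {p | om φ p ⊆ A i} := by
      intro p hpp
      obtain ⟨i, hi⟩ := hp p
      by_cases h0 : μ {p | om φ p ⊆ A i} = 0
      · exact mem_iUnion₂.2 ⟨i, h0, hi⟩
      · exfalso
        apply hpp
        exact mem_iUnion₂.2 ⟨A i, ⟨i, pos_iff_ne_zero.2 h0, rfl⟩, hi⟩
    refine measure_mono_null hsub ?_
    rw [measure_biUnion_null_iff (Set.to_countable _)]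
    exact fun i hi => hi

end Pool.Agent.X84.Fl
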